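import Pool.Agent.Helper51.SDL.Goals

/-! # SDL-LAT2 (MP_fc6b1e_nt): `H¹ = 0` for the group `1 + p^N A`. -/

set_option autoImplicit false

namespace Pool.Agent.Helper48.SDL.LAT2

open Module Pool.Agent.Helper51.SDL

section lattice

variable {F L : Type} [Field F] [Field L] [Algebra F L] {p : ℕ} {R : Subring F} {n : ℕ}
  {σ : L ≃ₐ[F] L} {a : L}

lemma add_mem {x y : L} (hx : x ∈ Lat R n σ a) (hy : y ∈ Lat R n σ a) : x + y ∈ Lat R n σ a := by
  obtain ⟨c, hc, rfl⟩ := hx
  obtain ⟨d, hd, rfl⟩ := hy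
  refine ⟨fun i => c i + d i, fun i => R.add_mem (hc i) (hd i), ?_⟩
  rw [← Finset.sum_add_distrib]
  refine Finset.sum_congr rfl fun i _ => ?_
  rw [map_add]
  ring

lemma smul_mem {r : F} (hr : r ∈ R) {x : L} (hx : x ∈ Lat R n σ a) :
    algebraMap F L r * x ∈ Lat R n σ a := by
  obtain ⟨c, hc, rfl⟩ := hx
  refine ⟨fun i => r * c i, fun i => R.mul_mem hr (hc i), ?_⟩
  rw [Finset.mul_sum]
  refine Finset.sum_congr rfl fun i _ => ?_
  rw [map_mul]
  ring

lemma zero_mem : (0 : L) ∈ Lat R n σ a :=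
  ⟨fun _ => 0, fun _ => R.zero_mem, by simp⟩

lemma neg_mem {x : L} (hx : x ∈ Lat R n σ a) : -x ∈ Lat R n σ a := by
  have := smul_mem (R.neg_mem R.one_mem) hx
  simpa using this

lemma sub_mem {x y : L} (hx : x ∈ Lat R n σ a) (hy : y ∈ Lat R n σ a) : x - y ∈ Lat R n σ a := by
  rw [sub_eq_add_neg]
  exact add_mem hx (neg_mem hy)

lemma pow_mem (p j : ℕ) {x : L} (hx : x ∈ Lat R n σ a) : (p : L) ^ j * x ∈ Lat R n σ a := by
  have h1 : ((p : F)) ^ j ∈ R := R.pow_mem (natCast_mem R p) j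
  have := smul_mem h1 hx
  simpa using this

lemma nat_mem (p : ℕ) {x : L} (hx : x ∈ Lat R n σ a) : (p : L) * x ∈ Lat R n σ a := by
  have := pow_mem p 1 hx
  rwa [pow_one] at this

lemma sum_mem {ι : Type} (s : Finset ι) (f : ι → L) (hf : ∀ i ∈ s, f i ∈ Lat R n σ a) :
    ∑ i ∈ s, f i ∈ Lat R n σ a := by
  classical
  induction s using Finset.induction_on with
  | empty => simpa using zero_mem
  | insert i s hi ih =>
    rw [Finset.sum_insert hi]
    exact add_mem (hf i (Finset.mem_insert_self i s))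
      (ih fun j hj => hf j (Finset.mem_insert_of_mem hj))

lemma base_mem {k : ℕ} (hk : k < n) : (σ ^ k) a ∈ Lat R n σ a := by
  refine ⟨fun i => if i = k then 1 else 0, fun i => ?_, ?_⟩
  · dsimp only
    split_ifs
    · exact R.one_mem
    · exact R.zero_mem
  · rw [Finset.sum_eq_single k]
    · simp
    · intro i _ hi
      simp [hi]
    · intro h
      exact absurd (Finset.mem_range.mpr hk) h

lemma conj_mem (h : LatH p R n σ a) (k : ℕ) : (σ ^ k) a ∈ Lat R n σ a := by
  have : σ ^ k = σ ^ (k % n) := by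
    conv_lhs => rw [← Nat.div_add_mod k n]
    rw [pow_add, pow_mul, h.pow, one_pow, one_mul]
  rw [this]
  exact base_mem (Nat.mod_lt _ h.pos)

lemma a_mem (h : LatH p R n σ a) : a ∈ Lat R n σ a := by
  have := conj_mem h 0
  simpa using this

lemma sig_succ (k : ℕ) (y : L) : σ ((σ ^ k) y) = (σ ^ (k + 1)) y := by
  rw [pow_succ']
  rfl

lemma sigma_mem (h : LatH p R n σ a) {x : L} (hx : x ∈ Lat R n σ a) : σ x ∈ Lat R n σ a := by
  obtain ⟨c, hc, rfl⟩ := hx
  rw [map_sum]
  refine sum_mem _ _ fun i _ => ?_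
  rw [map_mul, AlgEquiv.commutes, sig_succ]
  exact smul_mem (hc i) (conj_mem h _)

lemma sigma_pow_mem (h : LatH p R n σ a) {x : L} (hx : x ∈ Lat R n σ a) (k : ℕ) :
    (σ ^ k) x ∈ Lat R n σ a := by
  induction k with
  | zero => simpa using hx
  | succ k ih =>
    rw [← sig_succ]
    exact sigma_mem h ih

/-- the trace. -/
def Tr (n : ℕ) (σ : L ≃ₐ[F] L) (y : L) : L := ∑ l ∈ Finset.range n, (σ ^ l) y

lemma tel (h : LatH p R n σ a) (Z : ℕ → L) (y : L) :
    ∑ i ∈ Finset.range n, Z (i + 1) * (σ ^ (i + 1)) y =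
      ∑ i ∈ Finset.range n, Z i * (σ ^ i) y + Z n * y - Z 0 * y := by
  have h1 := Finset.sum_range_succ (fun i => Z i * (σ ^ i) y) n
  have h2 := Finset.sum_range_succ' (fun i => Z i * (σ ^ i) y) n
  rw [h.pow] at h1
  have e1 : (1 : L ≃ₐ[F] L) y = y := rfl
  rw [pow_zero, e1] at h2
  rw [e1] at h1
  linear_combination h1 - h2

lemma Tr_sigma (h : LatH p R n σ a) (y : L) : Tr n σ (σ y) = Tr n σ y := by
  have := tel h (fun _ => 1) y
  simp only [one_mul, add_sub_cancel_right] at this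
  rw [Tr, Tr, ← this]
  refine Finset.sum_congr rfl fun i _ => ?_
  rw [pow_succ]
  rfl

lemma sigma_Tr (h : LatH p R n σ a) (y : L) : σ (Tr n σ y) = Tr n σ y := by
  have := tel h (fun _ => 1) y
  simp only [one_mul, add_sub_cancel_right] at this
  rw [Tr, map_sum, ← this]
  exact Finset.sum_congr rfl fun i _ => sig_succ i y

lemma Tr_conj (h : LatH p R n σ a) (i : ℕ) (y : L) : Tr n σ ((σ ^ i) y) = Tr n σ y := by
  induction i with
  | zero => rfl
  | succ i ih => rw [← sig_succ, Tr_sigma h, ih]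

lemma Tr_lat (h : LatH p R n σ a) (c : ℕ → F) :
    Tr n σ (∑ i ∈ Finset.range n, algebraMap F L (c i) * (σ ^ i) a) =
      algebraMap F L (∑ i ∈ Finset.range n, c i) * Tr n σ a := by
  rw [map_sum, Finset.sum_mul]
  unfold Tr
  simp only [map_sum]
  rw [Finset.sum_comm]
  refine Finset.sum_congr rfl fun i _ => ?_
  have := Tr_conj h i a
  unfold Tr at this
  rw [← this, Finset.mul_sum]
  refine Finset.sum_congr rfl fun l _ => ?_
  rw [map_mul]
  congr 1
  exact AlgEquiv.commutes _ _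

lemma pL (h : LatH p R n σ a) : (p : L) ≠ 0 := by
  have := (map_ne_zero (algebraMap F L)).mpr h.ne
  simpa using this

/-- elements of the group are not zero. -/
lemma ne_zero (h : LatH p R n σ a) {N : ℕ}
    (hN : ∀ x ∈ Lat R n σ a, ∀ y ∈ Lat R n σ a, (p : L) ^ N * (x * y) ∈ Lat R n σ a)
    {x : L} (hx : x ∈ Lat R n σ a) : 1 + (p : L) ^ (N + 1) * x ≠ 0 := by
  intro h0
  obtain ⟨c, hc, hw⟩ := hN x hx a (a_mem h)
  have h1 : a + (p : L) * ((p : L) ^ N * (x * a)) = 0 := by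
    have : (1 + (p : L) ^ (N + 1) * x) * a = 0 := by rw [h0, zero_mul]
    rw [← this]
    ring
  rw [hw] at h1
  have h2 : ∑ i ∈ Finset.range n,
      algebraMap F L ((if i = 0 then 1 else 0) + (p : F) * c i) * (σ ^ i) a = 0 := by
    rw [← h1]
    simp only [map_add, add_mul, Finset.sum_add_distrib, Finset.mul_sum]
    congr 1
    · rw [Finset.sum_eq_single 0]
      · simp
      · intro i _ hi
        rw [if_neg hi]
        simp
      · intro hh
        exact absurd (Finset.mem_range.mpr h.pos) hh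
    · refine Finset.sum_congr rfl fun i _ => ?_
      rw [map_mul, map_natCast]
      ring
  have h3 := h.ind _ h2 0 h.pos
  rw [if_pos rfl] at h3
  obtain ⟨t, _, ht⟩ := h.rad (c 0) (hc 0)
  rw [h3, zero_mul] at ht
  exact zero_ne_one ht

lemma frac_mem (h : LatH p R n σ a) (x : L) : ∃ m : ℕ, (p : L) ^ m * x ∈ Lat R n σ a := by
  obtain ⟨c, rfl⟩ := h.bas x
  choose m hm using fun i => h.frac (c i)
  refine ⟨∑ i ∈ Finset.range n, m i, ?_⟩
  rw [Finset.mul_sum]
  refine sum_mem _ _ fun i hi => ?_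
  have hle : m i ≤ ∑ i ∈ Finset.range n, m i :=
    Finset.single_le_sum (f := m) (fun _ _ => Nat.zero_le _) hi
  have h1 : (p : F) ^ (∑ i ∈ Finset.range n, m i) * c i ∈ R := by
    have : (p : F) ^ (∑ i ∈ Finset.range n, m i) * c i =
        (p : F) ^ ((∑ i ∈ Finset.range n, m i) - m i) * ((p : F) ^ m i * c i) := by
      rw [← mul_assoc, ← pow_add, Nat.sub_add_cancel hle]
    rw [this]
    exact R.mul_mem (R.pow_mem (natCast_mem R p) _) (hm i)
  have h2 := smul_mem h1 (conj_mem h i)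
  rw [map_mul, map_pow, map_natCast] at h2
  rw [← mul_assoc]
  exact h2

/-- product of many factors close to `1`. -/
lemma prod_exp {N : ℕ}
    (hN : ∀ x ∈ Lat R n σ a, ∀ y ∈ Lat R n σ a, (p : L) ^ N * (x * y) ∈ Lat R n σ a)
    (f : ℕ → L) (hf : ∀ i, f i ∈ Lat R n σ a) (k : ℕ) :
    ∃ w ∈ Lat R n σ a, ∏ i ∈ Finset.range k, (1 + (p : L) ^ (N + 1) * f i) =
      1 + (p : L) ^ (N + 1) * ∑ i ∈ Finset.range k, f i + (p : L) ^ (N + 2) * w := by
  induction k with
  | zero => exact ⟨0, zero_mem, by simp⟩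
  | succ k ih =>
    obtain ⟨w, hw, hk⟩ := ih
    have hS : ∑ i ∈ Finset.range k, f i ∈ Lat R n σ a := sum_mem _ _ fun i _ => hf i
    refine ⟨w + (p : L) ^ N * ((∑ i ∈ Finset.range k, f i + (p : L) * w) * f k), ?_, ?_⟩
    · exact add_mem hw (hN _ (add_mem hS (nat_mem p hw)) _ (hf k))
    · rw [Finset.prod_range_succ, Finset.sum_range_succ, hk]
      ring

end lattice

/-- the group `1 + p^N A`. -/
def InV {F L : Type} [Field F] [Field L] [Algebra F L] (p : ℕ) (R : Subring F) (n : ℕ)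
    (σ : L ≃ₐ[F] L) (a : L) (N : ℕ) (v : L) : Prop :=
  ∃ x ∈ Lat R n σ a, v = 1 + (p : L) ^ N * x

theorem t (hL : S_LAT1) : S_LAT2 := by
  intro F L _ _ _ p R n σ a h
  obtain ⟨N₁, hN₁⟩ := hL F L p R n σ a h
  have hmul : ∀ N, N₁ ≤ N → ∀ x ∈ Lat R n σ a, ∀ y ∈ Lat R n σ a,
      (p : L) ^ N * (x * y) ∈ Lat R n σ a := fun N hN => (hN₁ N hN).1
  have hp0 := pL h
  -- the groups
  have Vmul : ∀ N, N₁ ≤ N → ∀ u v : L, InV p R n σ a N u → InV p R n σ a N v →
      InV p R n σ a N (u * v) := by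
    rintro N hN _ _ ⟨x, hx, rfl⟩ ⟨y, hy, rfl⟩
    refine ⟨x + y + (p : L) ^ N * (x * y), add_mem (add_mem hx hy) (hmul N hN x hx y hy), ?_⟩
    ring
  have Vsig : ∀ N (v : L), InV p R n σ a N v → InV p R n σ a N (σ v) := by
    rintro N _ ⟨x, hx, rfl⟩
    refine ⟨σ x, sigma_mem h hx, ?_⟩
    rw [map_add, map_one, map_mul, map_pow, map_natCast]
  have Vmono : ∀ N t (v : L), InV p R n σ a (N + t) v → InV p R n σ a N v := by
    rintro N t _ ⟨x, hx, rfl⟩
    refine ⟨(p : L) ^ t * x, pow_mem p t hx, ?_⟩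
    rw [pow_add]
    ring
  have Vne : ∀ N, N₁ + 1 ≤ N → ∀ v : L, InV p R n σ a N v → v ≠ 0 := by
    rintro N hN _ ⟨x, hx, rfl⟩
    obtain ⟨N', rfl⟩ : ∃ N', N = N' + 1 := ⟨N - 1, by omega⟩
    exact ne_zero h (hmul N' (by omega)) hx
  have Vinv : ∀ N, N₁ + 1 ≤ N → ∀ v : L, InV p R n σ a N v → InV p R n σ a N v⁻¹ := by
    intro N hN v hv
    obtain ⟨V, s, hV, -⟩ := (hN₁ N (by omega)).2
    have hv0 := Vne N hN v hv
    have h1 : Units.mk0 v hv0 ∈ V := (hV _).mpr hv
    have h2 := (hV _).mp (V.inv_mem h1)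
    rw [Units.val_inv_eq_inv_val, Units.val_mk0] at h2
    exact h2
  -- one step
  have step : ∀ j, N₁ + 1 ≤ j → ∀ v : L, InV p R n σ a j v →
      ∏ i ∈ Finset.range n, (σ ^ i) v = 1 →
      ∃ y v' : L, InV p R n σ a j y ∧ InV p R n σ a (j + 1) v' ∧
        ∏ i ∈ Finset.range n, (σ ^ i) v' = 1 ∧ v * σ y = y * v' := by
    intro j hj v hv hnorm
    obtain ⟨N, rfl⟩ : ∃ N, j = N + 1 := ⟨j - 1, by omega⟩
    obtain ⟨x, hx, hvx⟩ := hv
    obtain ⟨w, ⟨d, hd, hw⟩, hprod⟩ := prod_exp (hmul N (by omega)) (fun i => (σ ^ i) x)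
      (fun i => sigma_pow_mem h hx i) n
    have hfac : ∀ i, (σ ^ i) v = 1 + (p : L) ^ (N + 1) * (σ ^ i) x := by
      intro i
      rw [hvx, map_add, map_one, map_mul, map_pow, map_natCast]
    have hT : Tr n σ x = -((p : L) * w) := by
      have h1 : ∏ i ∈ Finset.range n, (σ ^ i) v =
          ∏ i ∈ Finset.range n, (1 + (p : L) ^ (N + 1) * (σ ^ i) x) :=
        Finset.prod_congr rfl fun i _ => hfac i
      rw [hnorm, hprod] at h1
      have h2 : (p : L) ^ (N + 1) * (Tr n σ x + (p : L) * w) = 0 := by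
        unfold Tr
        linear_combination -h1
      have h3 := (mul_eq_zero.mp h2).resolve_left (pow_ne_zero _ hp0)
      linear_combination h3
    obtain ⟨c, hc, hxc⟩ := hx
    have hsum : ∑ i ∈ Finset.range n, c i = -((p : F) * d 0) := by
      have h1 := Tr_lat h c
      rw [← hxc, hT, hw] at h1
      have h2 : ∑ l ∈ Finset.range n,
          algebraMap F L ((∑ i ∈ Finset.range n, c i) + (p : F) * d l) * (σ ^ l) a = 0 := by
        simp only [map_add, add_mul, Finset.sum_add_distrib]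
        rw [← Finset.mul_sum]
        have h3 : ∑ l ∈ Finset.range n, algebraMap F L ((p : F) * d l) * (σ ^ l) a =
            (p : L) * ∑ l ∈ Finset.range n, algebraMap F L (d l) * (σ ^ l) a := by
          rw [Finset.mul_sum]
          refine Finset.sum_congr rfl fun i _ => ?_
          rw [map_mul, map_natCast]
          ring
        rw [h3]
        have h4 : Tr n σ a = ∑ l ∈ Finset.range n, (σ ^ l) a := rfl
        rw [← h4]
        linear_combination -h1
      have h3 := h.ind _ h2 0 h.pos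
      linear_combination h3
    set Z : ℕ → F := fun i => ∑ l ∈ Finset.range i, c l with hZ
    set z : L := ∑ i ∈ Finset.range n, algebraMap F L (Z (i + 1)) * (σ ^ i) a with hz
    have hzA : z ∈ Lat R n σ a :=
      ⟨fun i => Z (i + 1), fun i => R.sum_mem fun l _ => hc l, rfl⟩
    have hsz : σ z = ∑ i ∈ Finset.range n, algebraMap F L (Z (i + 1)) * (σ ^ (i + 1)) a := by
      rw [hz, map_sum]
      refine Finset.sum_congr rfl fun i _ => ?_
      rw [map_mul, AlgEquiv.commutes, sig_succ]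
    have htel := tel h (fun i => algebraMap F L (Z i)) a
    have hZ0 : Z 0 = 0 := by simp [hZ]
    have hZn : Z n = -((p : F) * d 0) := hsum
    have hxz : x + σ z = z - (p : L) * (algebraMap F L (d 0) * a) := by
      have h1 : z = ∑ i ∈ Finset.range n, algebraMap F L (Z i) * (σ ^ i) a + x := by
        rw [hz, hxc, ← Finset.sum_add_distrib]
        refine Finset.sum_congr rfl fun i _ => ?_
        have : Z (i + 1) = Z i + c i := by simp [hZ, Finset.sum_range_succ]
        rw [this, map_add]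
        ring
      have h2 : algebraMap F L (Z n) = -((p : L) * algebraMap F L (d 0)) := by
        rw [hZn, map_neg, map_mul, map_natCast]
      rw [hsz]
      rw [htel, h2, hZ0, map_zero, zero_mul]
      linear_combination -h1
    set y : L := 1 + (p : L) ^ (N + 1) * z with hy
    have hyV : InV p R n σ a (N + 1) y := ⟨z, hzA, rfl⟩
    have hy0 : y ≠ 0 := Vne (N + 1) hj y hyV
    obtain ⟨z', hz', hyinv⟩ := Vinv (N + 1) hj y hyV
    set u : L := (p : L) ^ N * (x * σ z) - algebraMap F L (d 0) * a with hu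
    have hxA : x ∈ Lat R n σ a := ⟨c, hc, hxc⟩
    have huA : u ∈ Lat R n σ a :=
      sub_mem (hmul N (by omega) x hxA _ (sigma_mem h hzA)) (smul_mem (hd 0) (a_mem h))
    have hsy : σ y = 1 + (p : L) ^ (N + 1) * σ z := by
      rw [hy, map_add, map_one, map_mul, map_pow, map_natCast]
    have hvsy : v * σ y = y + (p : L) ^ (N + 2) * u := by
      rw [hsy, hvx, hu, hy]
      linear_combination (p : L) ^ (N + 1) * hxz
    refine ⟨y, v * σ y * y⁻¹, hyV, ⟨u + (p : L) ^ (N + 1) * (z' * u), ?_, ?_⟩, ?_, ?_⟩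
    · exact add_mem huA (hmul (N + 1) (by omega) z' hz' u huA)
    · rw [hvsy]
      have : (y + (p : L) ^ (N + 2) * u) * y⁻¹ = 1 + (p : L) ^ (N + 2) * (u * y⁻¹) := by
        field_simp
      rw [this, hyinv]
      ring
    · have h1 : ∀ i, (σ ^ i) (v * σ y * y⁻¹) = (σ ^ i) v * ((σ ^ (i + 1)) y * ((σ ^ i) y)⁻¹) := by
        intro i
        rw [map_mul, map_mul, map_inv₀, mul_assoc]
        rfl
      simp only [h1]
      rw [Finset.prod_mul_distrib, hnorm, one_mul, Finset.prod_mul_distrib, Finset.prod_inv_distrib]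
      have h2 := Finset.prod_range_succ (fun i => (σ ^ i) y) n
      have h3 := Finset.prod_range_succ' (fun i => (σ ^ i) y) n
      have e1 : (1 : L ≃ₐ[F] L) y = y := rfl
      rw [h.pow, e1] at h2
      rw [pow_zero, e1] at h3
      have h4 : ∏ i ∈ Finset.range n, (σ ^ (i + 1)) y = ∏ i ∈ Finset.range n, (σ ^ i) y :=
        mul_right_cancel₀ hy0 (h3.symm.trans h2)
      rw [h4]
      refine mul_inv_cancel₀ (Finset.prod_ne_zero_iff.mpr fun i _ => ?_)
      exact (map_ne_zero (σ ^ i)).mpr hy0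
    · field_simp
  refine ⟨N₁ + 1, fun N hN v hv hnorm => ?_⟩
  -- iteration
  have iter : ∀ t : ℕ, ∃ y v' : L, InV p R n σ a N y ∧ InV p R n σ a (N + t) v' ∧
      ∏ i ∈ Finset.range n, (σ ^ i) v' = 1 ∧ (v : L) * σ y = y * v' := by
    intro t
    induction t with
    | zero =>
      refine ⟨1, v, ⟨0, zero_mem, by ring⟩, hv, hnorm, ?_⟩
      rw [map_one]
      ring
    | succ t ih =>
      obtain ⟨y, v', hy, hv', hn', he⟩ := ih
      obtain ⟨y₂, v₂, hy₂, hv₂, hn₂, he₂⟩ := step (N + t) (by omega) v' hv' hn'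
      refine ⟨y * y₂, v₂, Vmul N (by omega) _ _ hy (Vmono N t _ hy₂), hv₂, hn₂, ?_⟩
      rw [map_mul]
      linear_combination σ y₂ * he + y * he₂
  -- the last step
  have ht0 : Tr n σ a ≠ 0 := by
    intro h0
    have h1 : ∑ i ∈ Finset.range n, algebraMap F L ((fun _ => (1 : F)) i) * (σ ^ i) a = 0 := by
      rw [← h0]
      unfold Tr
      exact Finset.sum_congr rfl fun i _ => by rw [map_one, one_mul]
    exact one_ne_zero (h.ind _ h1 0 h.pos)
  set a₀ : L := a * (Tr n σ a)⁻¹ with ha₀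
  obtain ⟨m, hm⟩ := frac_mem h a₀
  have hTr0 : ∑ i ∈ Finset.range n, (σ ^ i) a₀ = 1 := by
    have hTi : ∀ i, (σ ^ i) (Tr n σ a) = Tr n σ a := by
      intro i
      induction i with
      | zero => rfl
      | succ i ih => rw [← sig_succ, ih, sigma_Tr h]
    have : ∀ i, (σ ^ i) a₀ = (σ ^ i) a * (Tr n σ a)⁻¹ := by
      intro i
      rw [ha₀, map_mul, map_inv₀, hTi]
    simp only [this]
    rw [← Finset.sum_mul]
    exact mul_inv_cancel₀ ht0
  obtain ⟨y, vJ, hy, hvJ, hnJ, he⟩ := iter (m + N₁)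
  set qq : ℕ → L := fun i => ∏ l ∈ Finset.range i, (σ ^ l) vJ with hq
  have hσv : ∀ l, InV p R n σ a (N + (m + N₁)) ((σ ^ l) vJ) := by
    intro l
    induction l with
    | zero => exact hvJ
    | succ l ih =>
      rw [← sig_succ]
      exact Vsig _ _ ih
  have hqV : ∀ i, InV p R n σ a (N + (m + N₁)) (qq i) := by
    intro i
    induction i with
    | zero => exact ⟨0, zero_mem, by simp [hq]⟩
    | succ i ih =>
      have : qq (i + 1) = qq i * (σ ^ i) vJ := Finset.prod_range_succ _ _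
      rw [this]
      exact Vmul _ (by omega) _ _ ih (hσv i)
  have hqs : ∀ i, vJ * σ (qq i) = qq (i + 1) := by
    intro i
    simp only [hq]
    rw [Finset.prod_range_succ', map_prod, pow_zero]
    have e1 : (1 : L ≃ₐ[F] L) vJ = vJ := rfl
    rw [e1, mul_comm]
    congr 1
    exact Finset.prod_congr rfl fun l _ => sig_succ l vJ
  set y' : L := ∑ i ∈ Finset.range n, qq i * (σ ^ i) a₀ with hy'
  have hfix : vJ * σ y' = y' := by
    have h1 : vJ * σ y' = ∑ i ∈ Finset.range n, qq (i + 1) * (σ ^ (i + 1)) a₀ := by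
      rw [hy', map_sum, Finset.mul_sum]
      refine Finset.sum_congr rfl fun i _ => ?_
      rw [map_mul, sig_succ, ← hqs i]
      ring
    rw [h1, tel h qq a₀]
    have h2 : qq n = 1 := hnJ
    have h3 : qq 0 = 1 := by simp [hq]
    rw [h2, h3]
    ring
  have hy'V : InV p R n σ a N y' := by
    choose u hu huq using hqV
    refine ⟨∑ i ∈ Finset.range n, (p : L) ^ N₁ * (u i * (σ ^ i) ((p : L) ^ m * a₀)), ?_, ?_⟩
    · exact sum_mem _ _ fun i _ => hmul N₁ le_rfl _ (hu i) _ (sigma_pow_mem h hm i)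
    · rw [Finset.mul_sum, ← hTr0, hy', ← Finset.sum_add_distrib]
      refine Finset.sum_congr rfl fun i _ => ?_
      have e2 : (σ ^ i) ((p : L) ^ m * a₀) = (p : L) ^ m * (σ ^ i) a₀ := by
        rw [map_mul, map_pow, map_natCast]
      rw [huq i, e2, pow_add, pow_add]
      ring
  have hyy : InV p R n σ a N (y * y') := Vmul N (by omega) _ _ hy hy'V
  have hne := Vne N hN _ hyy
  refine ⟨Units.mk0 (y * y') hne, ?_, ?_⟩
  · rw [Units.val_mk0]
    exact hyy
  · rw [Units.val_mk0, map_mul]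
    linear_combination σ y' * he + y * hfix

end Pool.Agent.Helper48.SDL.LAT2
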